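import Mathlib
import Pool.Agent.H.MP_a9ea17_co.A

namespace Pool.Agent.Results.MP_a9ea17_co.Full

open Finset Pool.Agent.H.MP_a9ea17_co

/-- The cyclic successor `i + 1 mod k` of an index. -/
def nxt {k : ℕ} (i : Fin k) : Fin k := ⟨(i.val + 1) % k, Nat.mod_lt _ i.pos⟩

lemma good_small (k : ℕ) (l : List ℤ)
    (h0 : l.getD k 1 = l.getD 0 1)
    (h1 : ∀ i, i < k → (-(4 * k + 1 : ℤ) < l.getD i 1 ∧ l.getD i 1 < 2 * (4 * k + 1) ∧
      l.getD i 1 ≠ 0 ∧ l.getD i 1 ≠ 4 * k + 1) ∧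
      (-(4 * k + 1 : ℤ) < l.getD i 1 + l.getD (i + 1) 1 ∧
        l.getD i 1 + l.getD (i + 1) 1 < 2 * (4 * k + 1) ∧
        l.getD i 1 + l.getD (i + 1) 1 ≠ 0 ∧ l.getD i 1 + l.getD (i + 1) 1 ≠ 4 * k + 1))
    (h2 : ∀ z : ℕ, z < 2 * k + 1 → 1 ≤ z → ∃ i, i < k ∧
      (l.getD i 1 = z ∨ l.getD i 1 + l.getD (i + 1) 1 = z ∨
        l.getD i 1 + l.getD (i + 1) 1 = 4 * k + 1 - z))
    (c d : ℤ) (h3 : c * (∑ i ∈ range k, l.getD i 1) + d * (4 * k + 1) = 1) :
    Good k (fun i => l.getD i 1) := by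
  refine ⟨h0, h1, fun z hz1 hz2 => ?_, c, d, h3⟩
  obtain ⟨i, hi, h⟩ := h2 z (by omega) hz1
  refine ⟨i, hi, ?_⟩
  unfold Cg
  omega

lemma exists_good (k : ℕ) (hk : 2 < k) : ∃ X, Good k X := by
  by_cases h3 : k = 3
  · subst h3
    exact ⟨_, good_small 3 [1, 2, 4] (by decide) (by decide) (by decide) 2 (-1) (by decide)⟩
  by_cases h4 : k = 4
  · subst h4
    exact ⟨_, good_small 4 [1, 2, 6, 4] (by decide) (by decide) (by decide) 4 (-3) (by decide)⟩
  by_cases h5 : k = 5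
  · subst h5
    exact ⟨_, good_small 5 [1, 2, 7, 6, 4] (by decide) (by decide) (by decide) (-1) 1
      (by decide)⟩
  by_cases ho : k % 2 = 1
  · obtain ⟨n, rfl⟩ : ∃ n, k = 2 * n + 7 := ⟨(k - 7) / 2, by omega⟩
    exact ⟨_, goodO n⟩
  by_cases hz : k % 4 = 0
  · obtain ⟨n, rfl⟩ : ∃ n, k = 4 * n + 8 := ⟨(k - 8) / 4, by omega⟩
    exact ⟨_, goodZ n⟩
  · obtain ⟨n, rfl⟩ : ∃ n, k = 4 * n + 6 := ⟨(k - 6) / 4, by omega⟩
    exact ⟨_, goodT n⟩

lemma nz_cast (k : ℕ) (v : ℤ) (h : Nz (4 * k + 1) v) : (v : ZMod (4 * k + 1)) ≠ 0 := by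
  rw [Ne, ZMod.intCast_zmod_eq_zero_iff_dvd]
  rintro ⟨c, hc⟩
  obtain ⟨h1, h2, h3, h4⟩ := h
  push_cast at hc
  have ht : (0 : ℤ) < 4 * k + 1 := by positivity
  have c1 : -1 < c := by
    by_contra hh
    have : c ≤ -1 := by omega
    nlinarith
  have c2 : c < 2 := by
    by_contra hh
    have : 2 ≤ c := by omega
    nlinarith
  have : c = 0 ∨ c = 1 := by omega
  rcases this with rfl | rfl
  · exact h3 (by simpa using hc)
  · exact h4 (by simpa using hc)

lemma cg_cast (k : ℕ) (v z : ℤ) (h : Cg (4 * k + 1) v z) :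
    (v : ZMod (4 * k + 1)) = z ∨ (v : ZMod (4 * k + 1)) = -z := by
  have ht : ((4 * k + 1 : ℤ) : ZMod (4 * k + 1)) = 0 := by
    exact_mod_cast ZMod.natCast_self (4 * k + 1)
  rcases h with rfl | rfl | rfl | rfl
  · exact Or.inl rfl
  · right; push_cast; rfl
  · left; rw [Int.cast_add, ht, zero_add]
  · right; rw [Int.cast_sub, ht, zero_sub]

theorem result (k : ℕ) (hk : 2 < k) :
    ∃ x : Fin k → ZMod (4 * k + 1),
      (∀ i, x i ≠ 0) ∧
      ({z : ZMod (4 * k + 1) | z ≠ 0} =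
        ⋃ i, ({x i, -x i, x i + x (nxt i), -(x i + x (nxt i))} : Set (ZMod (4 * k + 1)))) ∧
      Nat.gcd (∑ i, x i).val (4 * k + 1) = 1 := by
  obtain ⟨X, hX⟩ := exists_good k hk
  have hn : ∀ i : Fin k, X (nxt i).val = X (i.val + 1) := by
    intro i
    by_cases h : i.val + 1 < k
    · simp only [nxt, Nat.mod_eq_of_lt h]
    · have h' : i.val + 1 = k := by omega
      simp only [nxt, h', Nat.mod_self, hX.wrap]
  have hs : ∀ i : Fin k, ((X i.val : ℤ) : ZMod (4 * k + 1)) + (X (nxt i).val : ℤ) =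
      ((X i.val + X (i.val + 1) : ℤ) : ZMod (4 * k + 1)) := by
    intro i; rw [hn]; push_cast; rfl
  refine ⟨fun i => (X i.val : ℤ), fun i => nz_cast k _ (hX.nz i i.2).1, ?_, ?_⟩
  · ext z
    simp only [Set.mem_setOf_eq, Set.mem_iUnion, Set.mem_insert_iff, Set.mem_singleton_iff, hs]
    constructor
    · intro hz
      have main : ∀ w : ℕ, 1 ≤ w → w ≤ 2 * k → ∀ z : ZMod (4 * k + 1),
          (z = ((w : ℤ) : ZMod (4 * k + 1)) ∨ z = -((w : ℤ) : ZMod (4 * k + 1))) →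
          ∃ i : Fin k, z = (X i.val : ℤ) ∨ z = -((X i.val : ℤ) : ZMod (4 * k + 1)) ∨
            z = ((X i.val + X (i.val + 1) : ℤ) : ZMod (4 * k + 1)) ∨
            z = -((X i.val + X (i.val + 1) : ℤ) : ZMod (4 * k + 1)) := by
        intro w h1 h2 z hw
        obtain ⟨i, hi, h⟩ := hX.cov w h1 h2
        refine ⟨⟨i, hi⟩, ?_⟩
        rcases h with h | h
        · rcases cg_cast k _ _ h with e | e <;> rcases hw with rfl | rfl <;> simp only [e] <;>
            simp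
        · rcases cg_cast k _ _ h with e | e <;> rcases hw with rfl | rfl <;> simp only [e] <;>
            simp
      have hv : z.val ≠ 0 := fun h => hz ((ZMod.val_eq_zero z).1 h)
      have hl : z.val < 4 * k + 1 := ZMod.val_lt z
      by_cases hc : z.val ≤ 2 * k
      · exact main z.val (by omega) hc z (Or.inl (by simp))
      · refine main (4 * k + 1 - z.val) (by omega) (by omega) z (Or.inr ?_)
        rw [Int.cast_natCast, Nat.cast_sub hl.le, ZMod.natCast_self]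
        simp
    · rintro ⟨i, h⟩
      have a := nz_cast k _ (hX.nz i i.2).1
      have b := nz_cast k _ (hX.nz i i.2).2
      rcases h with rfl | rfl | rfl | rfl
      · exact a
      · exact neg_ne_zero.2 a
      · exact b
      · exact neg_ne_zero.2 b
  · obtain ⟨c, d, h⟩ := hX.unit
    have e : (∑ i : Fin k, ((X i.val : ℤ) : ZMod (4 * k + 1))) =
        ((∑ i ∈ range k, X i : ℤ) : ZMod (4 * k + 1)) := by
      rw [Int.cast_sum, Fin.sum_univ_eq_sum_range (fun i => ((X i : ℤ) : ZMod (4 * k + 1)))]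
    have ht : ((4 * k + 1 : ℤ) : ZMod (4 * k + 1)) = 0 := by
      exact_mod_cast ZMod.natCast_self (4 * k + 1)
    have hu : IsUnit ((∑ i ∈ range k, X i : ℤ) : ZMod (4 * k + 1)) := by
      have h2 := congrArg (Int.cast : ℤ → ZMod (4 * k + 1)) h
      rw [Int.cast_add, Int.cast_mul, Int.cast_mul, ht, mul_zero, add_zero, Int.cast_one] at h2
      exact IsUnit.of_mul_eq_one _ ((mul_comm _ _).trans h2)
    rw [e]
    obtain ⟨u, hu⟩ := hu
    rw [← hu]
    exact ZMod.val_coe_unit_coprime u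

end Pool.Agent.Results.MP_a9ea17_co.Full
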